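import Mathlib

/-!
# Mixing rates, piece E4: comparison of the entropies of two partitions into arcs
-/

set_option autoImplicit false

namespace Pool.Agent.Helper69.MX

open Real MeasureTheory Finset

theorem negMulLog_sum_le {ι : Type*} (s : Finset ι) {w : ι → ℝ} (hw : ∀ i ∈ s, 0 ≤ w i) :
    negMulLog (∑ i ∈ s, w i) ≤ ∑ i ∈ s, negMulLog (w i) := by
  unfold negMulLog
  rw [neg_mul, Finset.sum_mul, ← Finset.sum_neg_distrib]
  refine Finset.sum_le_sum fun i hi => ?_
  rw [neg_mul, neg_le_neg_iff]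
  rcases (hw i hi).eq_or_lt with h | h
  · rw [← h, zero_mul, zero_mul]
  · exact mul_le_mul_of_nonneg_left
      (log_le_log h (Finset.single_le_sum (f := w) (fun j hj => hw j hj) hi)) h.le

theorem sum_negMulLog_le {ι : Type*} (s : Finset ι) {w : ι → ℝ} (hw : ∀ i ∈ s, 0 ≤ w i)
    {n : ℕ} (hn : s.card ≤ n) :
    ∑ i ∈ s, negMulLog (w i) ≤ negMulLog (∑ i ∈ s, w i) + (∑ i ∈ s, w i) * log n := by
  classical
  set q := ∑ i ∈ s, w i with hq
  have hq0 : 0 ≤ q := Finset.sum_nonneg hw
  rcases hq0.eq_or_lt with h | h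
  · have h1 : ∀ i ∈ s, w i = 0 := (Finset.sum_eq_zero_iff_of_nonneg hw).1 h.symm
    rw [← h, zero_mul, negMulLog_zero, add_zero]
    exact (Finset.sum_eq_zero fun i hi => by rw [h1 i hi, negMulLog_zero]).le
  · have hn0 : 0 < n := by
      refine lt_of_lt_of_le (Finset.card_pos.2 ?_) hn
      rw [Finset.nonempty_iff_ne_empty]
      rintro rfl
      rw [hq, Finset.sum_empty] at h
      exact lt_irrefl _ h
    have hn' : (0 : ℝ) < n := by exact_mod_cast hn0
    have h1 : ∀ i ∈ s, negMulLog (w i) + w i * log q - w i * log n ≤ q / n - w i := by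
      intro i hi
      rcases (hw i hi).eq_or_lt with h0 | h0
      · rw [← h0, negMulLog_zero]
        have := div_nonneg h.le hn'.le
        linarith
      · have h2 := log_le_sub_one_of_pos (div_pos h (mul_pos hn' h0))
        rw [log_div h.ne' (mul_pos hn' h0).ne', log_mul hn'.ne' h0.ne'] at h2
        have h3 := mul_le_mul_of_nonneg_left h2 h0.le
        have h4 : w i * (q / (n * w i) - 1) = q / n - w i := by
          field_simp
        rw [h4] at h3
        unfold negMulLog
        linarith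
    have h2 := Finset.sum_le_sum h1
    rw [Finset.sum_sub_distrib, Finset.sum_add_distrib, ← Finset.sum_mul, ← Finset.sum_mul,
      Finset.sum_sub_distrib, ← hq, Finset.sum_const, nsmul_eq_mul] at h2
    have h3 : (s.card : ℝ) * (q / n) ≤ q := by
      have h5 : (s.card : ℝ) ≤ n := by exact_mod_cast hn
      calc (s.card : ℝ) * (q / n) ≤ n * (q / n) :=
            mul_le_mul_of_nonneg_right h5 (div_nonneg h.le hn'.le)
        _ = q := by field_simp
    unfold negMulLog at h2 ⊢
    linarith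

/-- two finite measurable partitions given by their indices: if every set of the second meets at
most `n` sets of the first, the first entropy exceeds the second by at most `log n` -/
theorem ent_le_ent {Ω : Type*} [MeasurableSpace Ω] {μ : Measure Ω} [IsProbabilityMeasure μ]
    {f g : Ω → ℕ} (hf : Measurable f) (hg : Measurable g) {M N n : ℕ} (hfM : ∀ x, f x < M)
    (hgN : ∀ x, g x < N) (u : ℕ → Finset ℕ) (hu : ∀ j, (u j).card ≤ n) (hfg : ∀ x, f x ∈ u (g x)) :
    ∑ i ∈ range M, negMulLog (μ.real (f ⁻¹' {i})) ≤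
      ∑ j ∈ range N, negMulLog (μ.real (g ⁻¹' {j})) + log n := by
  classical
  have hmf : ∀ i, MeasurableSet (f ⁻¹' {i}) := fun i => hf (measurableSet_singleton _)
  have hmg : ∀ i, MeasurableSet (g ⁻¹' {i}) := fun i => hg (measurableSet_singleton _)
  have e1 : ∀ i, μ.real (f ⁻¹' {i}) = ∑ j ∈ range N, μ.real (f ⁻¹' {i} ∩ g ⁻¹' {j}) := by
    intro i
    rw [← measureReal_biUnion_finset]
    · congr 1
      ext x
      simp only [Set.mem_iUnion, Set.mem_inter_iff, Set.mem_preimage, Set.mem_singleton_iff,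
        exists_prop, Finset.mem_range]
      exact ⟨fun h => ⟨g x, hgN x, h, rfl⟩, fun ⟨j, _, h, _⟩ => h⟩
    · intro a _ b _ hab
      exact Set.disjoint_left.2 fun x hx hx' => hab (hx.2.symm.trans hx'.2)
    · exact fun j _ => (hmf i).inter (hmg j)
  have e2 : ∀ j, μ.real (g ⁻¹' {j}) = ∑ i ∈ range M, μ.real (f ⁻¹' {i} ∩ g ⁻¹' {j}) := by
    intro j
    rw [← measureReal_biUnion_finset]
    · congr 1
      ext x
      simp only [Set.mem_iUnion, Set.mem_inter_iff, Set.mem_preimage, Set.mem_singleton_iff,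
        exists_prop, Finset.mem_range]
      exact ⟨fun h => ⟨f x, hfM x, rfl, h⟩, fun ⟨i, _, _, h⟩ => h⟩
    · intro a _ b _ hab
      exact Set.disjoint_left.2 fun x hx hx' => hab (hx.1.symm.trans hx'.1)
    · exact fun i _ => (hmf i).inter (hmg j)
  have e3 : ∑ j ∈ range N, μ.real (g ⁻¹' {j}) = 1 := by
    rw [← measureReal_biUnion_finset]
    · have : (⋃ j ∈ range N, g ⁻¹' {j}) = Set.univ := by
        rw [Set.eq_univ_iff_forall]
        intro x
        simp only [Set.mem_iUnion, Set.mem_preimage, Set.mem_singleton_iff, exists_prop,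
          Finset.mem_range]
        exact ⟨g x, hgN x, rfl⟩
      rw [this]
      exact probReal_univ
    · intro a _ b _ hab
      exact Set.disjoint_left.2 fun x hx hx' => hab (hx.symm.trans hx')
    · exact fun j _ => hmg j
  have e4 : ∀ j ∈ range N, ∑ i ∈ range M, negMulLog (μ.real (f ⁻¹' {i} ∩ g ⁻¹' {j})) ≤
      negMulLog (μ.real (g ⁻¹' {j})) + μ.real (g ⁻¹' {j}) * log n := by
    intro j _
    have h0 : ∀ i, i ∉ u j → μ.real (f ⁻¹' {i} ∩ g ⁻¹' {j}) = 0 := by
      intro i hi
      have : f ⁻¹' {i} ∩ g ⁻¹' {j} = ∅ := by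
        rw [Set.eq_empty_iff_forall_notMem]
        rintro x ⟨h1, h2⟩
        rw [Set.mem_preimage, Set.mem_singleton_iff] at h1 h2
        have := hfg x
        rw [h1, h2] at this
        exact hi this
      rw [this, measureReal_empty]
    have h1 : ∑ i ∈ range M, negMulLog (μ.real (f ⁻¹' {i} ∩ g ⁻¹' {j})) =
        ∑ i ∈ range M ∩ u j, negMulLog (μ.real (f ⁻¹' {i} ∩ g ⁻¹' {j})) := by
      symm
      refine Finset.sum_subset Finset.inter_subset_left fun i hi hi' => ?_
      rw [h0 i (fun h => hi' (Finset.mem_inter.2 ⟨hi, h⟩)), negMulLog_zero]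
    have h2 : ∑ i ∈ range M, μ.real (f ⁻¹' {i} ∩ g ⁻¹' {j}) =
        ∑ i ∈ range M ∩ u j, μ.real (f ⁻¹' {i} ∩ g ⁻¹' {j}) := by
      symm
      refine Finset.sum_subset Finset.inter_subset_left fun i hi hi' => ?_
      exact h0 i (fun h => hi' (Finset.mem_inter.2 ⟨hi, h⟩))
    rw [h1, e2 j, h2]
    exact sum_negMulLog_le _ (fun i _ => measureReal_nonneg)
      ((Finset.card_le_card Finset.inter_subset_right).trans (hu j))
  calc ∑ i ∈ range M, negMulLog (μ.real (f ⁻¹' {i}))
      ≤ ∑ i ∈ range M, ∑ j ∈ range N, negMulLog (μ.real (f ⁻¹' {i} ∩ g ⁻¹' {j})) := by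
        refine Finset.sum_le_sum fun i _ => ?_
        rw [e1 i]
        exact negMulLog_sum_le _ fun j _ => measureReal_nonneg
    _ = ∑ j ∈ range N, ∑ i ∈ range M, negMulLog (μ.real (f ⁻¹' {i} ∩ g ⁻¹' {j})) :=
        Finset.sum_comm
    _ ≤ ∑ j ∈ range N, (negMulLog (μ.real (g ⁻¹' {j})) + μ.real (g ⁻¹' {j}) * log n) :=
        Finset.sum_le_sum e4
    _ = ∑ j ∈ range N, negMulLog (μ.real (g ⁻¹' {j})) + log n := by
        rw [Finset.sum_add_distrib, ← Finset.sum_mul, e3, one_mul]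

/-- the circle `ℝ / ℤ` -/
abbrev Tor := AddCircle (1 : ℝ)

/-- the index of the arc of length `1 / N` -/
noncomputable def ix (N : ℕ) (x : Tor) : ℕ := ⌊(N : ℝ) * (AddCircle.equivIco (1 : ℝ) 0 x : ℝ)⌋₊

theorem measurable_ix (N : ℕ) : Measurable (ix N) := by
  unfold ix
  refine Nat.measurable_floor.comp (measurable_const.mul ?_)
  exact measurable_subtype_coe.comp (AddCircle.measurableEquivIco (1 : ℝ) 0).measurable

theorem rep_mem (x : Tor) : (AddCircle.equivIco (1 : ℝ) 0 x : ℝ) ∈ Set.Ico (0 : ℝ) 1 := by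
  obtain ⟨h1, h2⟩ := (AddCircle.equivIco (1 : ℝ) 0 x).2
  exact ⟨h1, by linarith⟩

theorem ix_lt {N : ℕ} (hN : 0 < N) (x : Tor) : ix N x < N := by
  obtain ⟨h1, h2⟩ := rep_mem x
  have hN' : (0 : ℝ) < N := by exact_mod_cast hN
  unfold ix
  rw [Nat.floor_lt (mul_nonneg hN'.le h1)]
  nlinarith

/-- the arc `[i / N, (i + 1) / N)` is the set of the points with index `i` -/
theorem arc_eq_ix {N i : ℕ} (hi : i < N) :
    (fun t : ℝ => (t : Tor)) '' Set.Ico ((i : ℝ) / N) ((i + 1) / N) = ix N ⁻¹' {i} := by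
  have hN' : (0 : ℝ) < N := by exact_mod_cast (Nat.zero_le i).trans_lt hi
  have hi' : (i : ℝ) + 1 ≤ N := by exact_mod_cast hi
  ext x
  constructor
  · rintro ⟨t, ⟨h1, h2⟩, rfl⟩
    have h3 : t ∈ Set.Ico (0 : ℝ) (0 + 1) := by
      refine ⟨le_trans (by positivity) h1, h2.trans_le ?_⟩
      rw [zero_add, div_le_one hN']
      exact hi'
    have h4 : (AddCircle.equivIco (1 : ℝ) 0 (t : Tor) : ℝ) = t := by
      rw [AddCircle.equivIco_coe_of_mem (p := (1 : ℝ)) (a := 0) h3]
    rw [Set.mem_preimage, Set.mem_singleton_iff]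
    show ix N (t : Tor) = i
    unfold ix
    rw [h4, Nat.floor_eq_iff (mul_nonneg hN'.le h3.1)]
    rw [div_le_iff₀ hN'] at h1
    rw [lt_div_iff₀ hN'] at h2
    constructor <;> linarith
  · intro h
    rw [Set.mem_preimage, Set.mem_singleton_iff] at h
    unfold ix at h
    rw [Nat.floor_eq_iff (mul_nonneg hN'.le (rep_mem x).1)] at h
    refine ⟨(AddCircle.equivIco (1 : ℝ) 0 x : ℝ), ⟨?_, ?_⟩, ?_⟩
    · rw [div_le_iff₀ hN']
      linarith [h.1]
    · rw [lt_div_iff₀ hN']
      linarith [h.2]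
    · exact (AddCircle.equivIco (1 : ℝ) 0).symm_apply_apply x

/-- the entropy of the partition of the circle into `N` arcs of length `1 / N` -/
noncomputable def entN (μ : Measure Tor) (N : ℕ) : ℝ :=
  ∑ i ∈ range N, negMulLog (μ.real ((fun t : ℝ => (t : Tor)) '' Set.Ico ((i : ℝ) / N)
    ((i + 1) / N)))

theorem entN_eq (μ : Measure Tor) (N : ℕ) :
    entN μ N = ∑ i ∈ range N, negMulLog (μ.real (ix N ⁻¹' {i})) := by
  unfold entN
  refine Finset.sum_congr rfl fun i hi => ?_
  rw [arc_eq_ix (Finset.mem_range.1 hi)]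

/-- **E4**: coarser arcs have at most `log 2` more entropy -/
theorem entN_le (μ : Measure Tor) [IsProbabilityMeasure μ] {M N : ℕ} (hM : 0 < M) (hMN : M ≤ N) :
    entN μ M ≤ entN μ N + log 2 := by
  have hN : 0 < N := hM.trans_le hMN
  have hM' : (0 : ℝ) < M := by exact_mod_cast hM
  have hN' : (0 : ℝ) < N := by exact_mod_cast hN
  have hMN' : (M : ℝ) ≤ N := by exact_mod_cast hMN
  rw [entN_eq, entN_eq]
  have := ent_le_ent (μ := μ) (n := 2) (measurable_ix M) (measurable_ix N) (ix_lt hM) (ix_lt hN)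
    (fun j => {j * M / N, j * M / N + 1}) (fun j => Finset.card_le_two) (fun x => ?_)
  · exact_mod_cast this
  · obtain ⟨h1, h2⟩ := rep_mem x
    have a1 : ((ix M x : ℕ) : ℝ) ≤ M * (AddCircle.equivIco (1 : ℝ) 0 x : ℝ) :=
      Nat.floor_le (mul_nonneg hM'.le h1)
    have a2 : (M : ℝ) * (AddCircle.equivIco (1 : ℝ) 0 x : ℝ) < (ix M x : ℕ) + 1 :=
      Nat.lt_floor_add_one _
    have b1 : ((ix N x : ℕ) : ℝ) ≤ N * (AddCircle.equivIco (1 : ℝ) 0 x : ℝ) :=
      Nat.floor_le (mul_nonneg hN'.le h1)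
    have b2 : (N : ℝ) * (AddCircle.equivIco (1 : ℝ) 0 x : ℝ) < (ix N x : ℕ) + 1 :=
      Nat.lt_floor_add_one _
    set t := (AddCircle.equivIco (1 : ℝ) 0 x : ℝ)
    set i := ix M x
    set j := ix N x
    have c1 : j * M < (i + 1) * N := by
      have : (j : ℝ) * M < (i + 1) * N := by nlinarith
      exact_mod_cast this
    have c2 : i * N < (j + 1) * M := by
      have : (i : ℝ) * N < (j + 1) * M := by nlinarith
      exact_mod_cast this
    have c3 : j * M / N < i + 1 := (Nat.div_lt_iff_lt_mul hN).2 c1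
    have c4 : i < j * M / N + 2 := by
      have h5 : j * M < (j * M / N + 1) * N := by
        rw [mul_comm (j * M / N + 1) N, mul_add, mul_one]
        have := Nat.div_add_mod (j * M) N
        have := Nat.mod_lt (j * M) hN
        omega
      by_contra h6
      have h7 : (j * M / N + 2) * N ≤ i * N := Nat.mul_le_mul_right N (not_lt.1 h6)
      nlinarith
    rw [Finset.mem_insert, Finset.mem_singleton]
    omega

end Pool.Agent.Helper69.MX
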