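import Pool.Agent.Helper87.MX.Fr
import Pool.Agent.Helper69.MX.EntCompare

/-!
# Mixing rates, piece E4
-/

set_option autoImplicit false

namespace Pool.Agent.Helper69.MX

open MeasureTheory Finset Pool.Agent.Helper87.MX

/-- **E4**: comparison of the dyadic and the triadic entropy -/
theorem s_E4 : S_E4 := by
  intro μ hμ K K' h
  have h1 := entN_le μ (M := 2 ^ K) (N := 3 ^ K') (by positivity) h
  have e1 : entN μ (2 ^ K) = ent μ K := by
    unfold entN ent arc
    push_cast
    rfl
  have e2 : entN μ (3 ^ K') = ent3 μ K' := by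
    unfold entN ent3 arc3
    push_cast
    rfl
  rwa [e1, e2] at h1

end Pool.Agent.Helper69.MX
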